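import Pool.Statements.S03067

set_option autoImplicit false
open Pool Pool.MP_cc18b0_al

namespace Pool.Agent.S03067

/-- the characters with values in `ℚ/ℤ` which vanish on `H` -/
def ann {A : Type} [AddCommGroup A] (H : AddSubgroup A) : AddSubgroup (CharacterModule A) where
  carrier := {c | ∀ x ∈ H, c x = 0}
  zero_mem' := fun _ _ => rfl
  add_mem' := fun {a b} ha hb x hx => by
    change a x + b x = 0
    rw [ha x hx, hb x hx, add_zero]
  neg_mem' := fun {a} ha x hx => by
    change -(a x) = 0
    rw [ha x hx, neg_zero]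

theorem mem_ann {A : Type} [AddCommGroup A] {H : AddSubgroup A} {c : CharacterModule A} :
    c ∈ ann H ↔ ∀ x ∈ H, c x = 0 := Iff.rfl

theorem ann_sup {A : Type} [AddCommGroup A] (H K : AddSubgroup A) :
    ann (H ⊔ K) = ann H ⊓ ann K := by
  ext c
  rw [AddSubgroup.mem_inf, mem_ann, mem_ann, mem_ann]
  constructor
  · intro h
    exact ⟨fun x hx => h x (AddSubgroup.mem_sup_left hx), fun x hx => h x (AddSubgroup.mem_sup_right hx)⟩
  · rintro ⟨h1, h2⟩ x hx
    obtain ⟨y, hy, z, hz, rfl⟩ := AddSubgroup.mem_sup.1 hx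
    rw [map_add, h1 y hy, h2 z hz, add_zero]

theorem ann_inf {A : Type} [AddCommGroup A] (H K : AddSubgroup A) :
    ann (H ⊓ K) = ann H ⊔ ann K := by
  apply le_antisymm
  · intro c hc
    rw [mem_ann] at hc
    -- the embedding of `A / (H ∩ K)` into the product
    let H' : Submodule ℤ A := AddSubgroup.toIntSubmodule H
    let K' : Submodule ℤ A := AddSubgroup.toIntSubmodule K
    let q : A →ₗ[ℤ] (A ⧸ H') × (A ⧸ K') := H'.mkQ.prod K'.mkQ
    have hker : LinearMap.ker q = H' ⊓ K' := by
      rw [LinearMap.ker_prod, Submodule.ker_mkQ, Submodule.ker_mkQ]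
    let f : (A ⧸ LinearMap.ker q) →ₗ[ℤ] (A ⧸ H') × (A ⧸ K') := (LinearMap.ker q).liftQ q le_rfl
    have hf : Function.Injective f := by
      rw [← LinearMap.ker_eq_bot]
      exact Submodule.ker_liftQ_eq_bot' _ _ rfl
    let cl : A →ₗ[ℤ] AddCircle (1 : ℚ) := AddMonoidHom.toIntLinearMap c
    have hcl : LinearMap.ker q ≤ LinearMap.ker cl := by
      intro x hx
      rw [hker] at hx
      exact hc x hx
    let cb : CharacterModule (A ⧸ LinearMap.ker q) := ((LinearMap.ker q).liftQ cl hcl).toAddMonoidHom
    obtain ⟨ψ, hψ⟩ := CharacterModule.dual_surjective_of_injective f hf cb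
    have key : ∀ a : A, ψ (H'.mkQ a, K'.mkQ a) = c a := by
      intro a
      have h := DFunLike.congr_fun hψ ((LinearMap.ker q).mkQ a)
      exact h
    let c1 : CharacterModule A :=
      ((AddMonoidHom.comp (ψ : (A ⧸ H') × (A ⧸ K') →+ AddCircle (1 : ℚ)) (AddMonoidHom.inl _ _)).comp
        H'.mkQ.toAddMonoidHom)
    let c2 : CharacterModule A :=
      ((AddMonoidHom.comp (ψ : (A ⧸ H') × (A ⧸ K') →+ AddCircle (1 : ℚ)) (AddMonoidHom.inr _ _)).comp
        K'.mkQ.toAddMonoidHom)
    have e1 : ∀ a, c1 a = ψ (H'.mkQ a, 0) := fun _ => rfl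
    have e2 : ∀ a, c2 a = ψ (0, K'.mkQ a) := fun _ => rfl
    rw [AddSubgroup.mem_sup]
    refine ⟨c1, ?_, c2, ?_, ?_⟩
    · rw [mem_ann]
      intro x hx
      have : H'.mkQ x = 0 := (Submodule.Quotient.mk_eq_zero H').2 hx
      rw [e1, this]
      exact map_zero ψ
    · rw [mem_ann]
      intro x hx
      have : K'.mkQ x = 0 := (Submodule.Quotient.mk_eq_zero K').2 hx
      rw [e2, this]
      exact map_zero ψ
    · apply CharacterModule.ext
      intro a
      change c1 a + c2 a = c a
      rw [e1, e2, ← map_add, ← key a]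
      congr 1
      ext <;> simp
  · apply sup_le
    · intro c hc x hx
      exact hc x hx.1
    · intro c hc x hx
      exact hc x hx.2

theorem ann_injective {A : Type} [AddCommGroup A] :
    Function.Injective (ann : AddSubgroup A → AddSubgroup (CharacterModule A)) := by
  have key : ∀ H K : AddSubgroup A, ann H ≤ ann K → K ≤ H := by
    intro H K h x hx
    by_contra hn
    let H' : Submodule ℤ A := AddSubgroup.toIntSubmodule H
    have h0 : H'.mkQ x ≠ 0 := by
      intro h1
      exact hn ((Submodule.Quotient.mk_eq_zero H').1 h1)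
    obtain ⟨c, hc⟩ := CharacterModule.exists_character_apply_ne_zero_of_ne_zero h0
    let c' : CharacterModule A :=
      AddMonoidHom.comp (c : (A ⧸ H') →+ AddCircle (1 : ℚ)) H'.mkQ.toAddMonoidHom
    have h1 : c' ∈ ann H := by
      intro y hy
      have : H'.mkQ y = 0 := (Submodule.Quotient.mk_eq_zero H').2 hy
      change c (H'.mkQ y) = 0
      rw [this]
      exact map_zero c
    exact hc (h h1 x hx)
  intro H K h
  exact le_antisymm (key K H h.ge) (key H K h.le)

/-- For every lattice L, if L embeds as a lattice into the subgroup lattice of some abelian group, then its order dual also embeds as a lattice into the subgroup lattice of some abelian group. -/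
theorem result :
    ∀ (L : Type) [Lattice L],
      (∃ (A : Type) (_ : AddCommGroup A), ∃ f : LatticeHom L (AddSubgroup A), Function.Injective f) →
      (∃ (B : Type) (_ : AddCommGroup B), ∃ g : LatticeHom Lᵒᵈ (AddSubgroup B), Function.Injective g) := by
  rintro L _ ⟨A, _, f, hf⟩
  refine ⟨CharacterModule A, inferInstance,
    { toFun := fun x => ann (f (OrderDual.ofDual x))
      map_sup' := fun x y => ?_
      map_inf' := fun x y => ?_ }, ?_⟩
  · change ann (f (OrderDual.ofDual x ⊓ OrderDual.ofDual y)) = _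
    rw [map_inf, ann_inf]
  · change ann (f (OrderDual.ofDual x ⊔ OrderDual.ofDual y)) = _
    rw [map_sup, ann_sup]
  · intro x y h
    exact hf (ann_injective h)

end Pool.Agent.S03067
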