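import Pool.Statements.S13155
import Pool.Agent.Run7.h538.FU.Main

set_option autoImplicit false
open Pool Pool.MP_5008c3_gt

namespace Pool.Agent.S13155

/-- For every metrizable space X whose non-isolated points form a compact set, the subspace of the free topological group on X of elements of reduced length at most 4 is Fréchet–Urysohn. -/
theorem result :
    ∀ (X : Type) [τ : TopologicalSpace X] [TopologicalSpace.MetrizableSpace X],
      IsCompact {x : X | ¬ IsOpen ({x} : Set X)} →
      @FrechetUrysohnSpace
        {w : FreeGroup X // ∃ L : List (X × Bool), L.length ≤ 4 ∧ FreeGroup.mk L = w}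
        (TopologicalSpace.induced Subtype.val
          (sInf {t : GroupTopology (FreeGroup X) |
            @Continuous X (FreeGroup X) τ t.toTopologicalSpace FreeGroup.of}).toTopologicalSpace) := by
  intro X τ hm hK
  classical
  let _ : MetricSpace X := TopologicalSpace.metrizableSpaceMetric X
  let _ : TopologicalSpace (FreeGroup X) := Pool.Agent.R821.FG.topF X
  refine ⟨fun s g hg => ?_⟩
  have h1 : g.1 ∈ closure (Subtype.val '' s : Set (FreeGroup X)) := closure_subtype.1 hg
  have h2 : ∀ w ∈ (Subtype.val '' s : Set (FreeGroup X)), w.toWord.length ≤ 4 := by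
    rintro _ ⟨⟨w, L, hL, rfl⟩, _, rfl⟩
    exact (FreeGroup.norm_mk_le (L₁ := L)).trans hL
  obtain ⟨q, hq, hq2⟩ := Pool.Agent.Run7.h538.FU.main (K := {x : X | ¬ IsOpen ({x} : Set X)})
    (fun x hx => hx) hK h2 h1
  choose r hr hr2 using hq
  refine ⟨r, hr, ?_⟩
  rw [tendsto_subtype_rng]
  refine hq2.congr fun n => ?_
  exact (hr2 n).symm

end Pool.Agent.S13155
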